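import Pool.Agent.H620R2.Gauge2.Defs

/-!
# The levels of the polynomial hierarchy relative to an oracle

(Continues `Pool.Agent.H620R2.Gauge.Defs` and `Pool.Agent.H620R2.Gauge2.Defs`.)
-/

namespace Pool.Agent.H620R2.Gauge

open Pool.Agent.NPC

/-- The language `L` is on the `k`-th level `Σ_k` of the polynomial hierarchy relative to `A`:
`x` is in `L` if and only if `∃ w₁ ∀ w₂ ∃ w₃ ...` (`k` quantifiers over the strings of length at
most `p(|x|)`) the algorithm `V`, which is polynomial-time computable relative to `A`, accepts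
`⟨w_k, ⟨..., ⟨w₁, x⟩⟩⟩`. For `k = 0` this is `P`, for `k = 1` it is `NP`. -/
def IsSigma (A : Oracle) (k : ℕ) (L : Set (List Bool)) : Prop :=
  ∃ (V : List Bool → List Bool) (p : Polynomial ℕ), IsFP A V ∧
    ∀ x, x ∈ L ↔ Quant (p.eval x.length) V k true x

end Pool.Agent.H620R2.Gauge
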