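import Pool.Agent.H620R2.GaugeS.Defs
import Pool.Agent.H620R2.GaugeX.KeyX

/-! The first levels of the polynomial hierarchy. -/

namespace Pool.Agent.H620R2.Gauge

open Pool.Agent.NPC Pool.Agent.H622R2

theorem isSigma_one {A : Oracle} {L : Set (List Bool)} : IsSigma A 1 L ↔ IsNP A L := Iff.rfl

theorem isSigma_zero {A : Oracle} {L : Set (List Bool)} : IsSigma A 0 L ↔ IsP A L := by
  constructor
  · rintro ⟨V, p, hV, hL⟩
    exact ⟨V, hV, hL⟩
  · rintro ⟨V, hV, hL⟩
    exact ⟨V, 0, hV, hL⟩

theorem IsSigma.isPSPACE {A : Oracle} {k : ℕ} {L : Set (List Bool)} (h : IsSigma A k L) :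
    IsPSPACE A L := by
  obtain ⟨V, p, hV, hL⟩ := h
  exact IsPH.isPSPACE ⟨V, p, k, hV, hL⟩

/-- `coNP` is contained in the second level -/
theorem IsNP.compl_sigma_two {A : Oracle} {L : Set (List Bool)} (h : IsNP A L) :
    IsSigma A 2 Lᶜ := by
  obtain ⟨V, p, hV, hL⟩ := h
  -- the verifier: negate the answer and forget the first witness
  have hP : IsP A {z | V z = [true]} := ⟨V, hV, fun z => Iff.rfl⟩
  obtain ⟨V', hV', hL'⟩ := hP.compl
  have h2 : Poly (fun z : List Bool => pairBits (unpair z).1 (unpair (unpair z).2).2) :=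
    poly_pairBits (Poly.fst poly_unpair)
      (Poly.snd (poly_unpair.comp (Poly.snd poly_unpair)))
  refine ⟨fun z => V' (pairBits (unpair z).1 (unpair (unpair z).2).2), p, hV'.precomp h2,
    fun x => ?_⟩
  rw [Set.mem_compl_iff, hL x]
  have key : ∀ w' w : List Bool,
      (V' (pairBits (unpair (pairBits w' (pairBits w x))).1
        (unpair (unpair (pairBits w' (pairBits w x))).2).2) = [true]) ↔
        ¬ V (pairBits w' x) = [true] := by
    intro w' w
    rw [unpair_pairBits]
    simp only [unpair_pairBits]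
    exact (hL' (pairBits w' x)).symm
  constructor
  · intro hx
    refine ⟨[], by simp, fun w' hw' => ?_⟩
    exact (key w' []).2 fun h => hx ⟨w', hw', h⟩
  · rintro ⟨w, _, hw⟩ ⟨w', hw', h⟩
    exact (key w' w).1 (hw w' hw') h

end Pool.Agent.H620R2.Gauge
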